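import Pool.Agent.W2helper50.MG.Stm
import Pool.Agent.H620R2.Gauge.S

/-!
# Project MG, piece COUNT: counting the places of the planted bits
-/

set_option autoImplicit false

open Filter
open Pool.Agent.W2helper50.MG

namespace Pool.Agent.W2helper82.MG

lemma st_mono {g : ℕ → ℕ} (hg : Monotone g) : Monotone (st g) := by
  intro a b hab
  unfold st
  exact Nat.sqrt_le_sqrt (Nat.sqrt_le_sqrt (min_le_min (hg hab) hab))

lemma st_pow_le (g : ℕ → ℕ) (m : ℕ) : st g m ^ 4 ≤ g m := by
  unfold st
  have h1 := Nat.sqrt_le' (Nat.sqrt (min (g m) m))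
  have h2 := Nat.sqrt_le' (min (g m) m)
  calc Nat.sqrt (Nat.sqrt (min (g m) m)) ^ 4 = (Nat.sqrt (Nat.sqrt (min (g m) m)) ^ 2) ^ 2 := by ring
    _ ≤ Nat.sqrt (min (g m) m) ^ 2 := Nat.pow_le_pow_left h1 2
    _ ≤ min (g m) m := h2
    _ ≤ g m := min_le_left _ _

lemma st_tendsto {g : ℕ → ℕ} (hg : Tendsto g atTop atTop) : Tendsto (st g) atTop atTop := by
  rw [tendsto_atTop]
  intro b
  have h1 := (tendsto_atTop.1 hg) ((b * b) * (b * b))
  filter_upwards [h1, eventually_ge_atTop ((b * b) * (b * b))] with m hm1 hm2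
  unfold st
  rw [Nat.le_sqrt, Nat.le_sqrt]
  exact le_min hm1 hm2

lemma log_tendsto : Tendsto (fun N : ℕ => Nat.log 2 N) atTop atTop := by
  rw [tendsto_atTop]
  intro b
  filter_upwards [eventually_ge_atTop (2 ^ b)] with N hN
  exact Nat.le_log_of_pow_le (by norm_num) hN

lemma act_inj {g : ℕ → ℕ} (hg : Monotone g) {m m' : ℕ} (h : act g m) (h' : act g m')
    (e : st g m = st g m') : m = m' := by
  rcases lt_trichotomy m m' with hlt | heq | hlt
  · have h1 := st_mono hg (show m ≤ m' - 1 by omega)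
    unfold act at h'
    omega
  · exact heq
  · have h1 := st_mono hg (show m' ≤ m - 1 by omega)
    unfold act at h
    omega

open Classical in
theorem count : COUNT := by
  intro g hg ht
  have hs : Tendsto (fun N : ℕ => st g (Nat.log 2 (Nat.log 2 N))) atTop atTop :=
    (st_tendsto ht).comp (log_tendsto.comp log_tendsto)
  filter_upwards [(tendsto_atTop.1 hs) 3, eventually_ge_atTop 1] with N hN hN1
  set M := Nat.log 2 (Nat.log 2 N) with hM
  set s := st g M with hsdef
  -- the actives
  set T : Finset (ℕ × ℕ × ℕ) := ((Finset.range (M + 1)).filter (act g)) ×ˢ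
    (Finset.range s ×ˢ Finset.range (3 * s)) with hT
  have hact : ((Finset.range (M + 1)).filter (act g)).card ≤ s := by
    have h1 : ((Finset.range (M + 1)).filter (act g)).card ≤ (Finset.Icc 1 s).card := by
      refine Finset.card_le_card_of_injOn (st g) ?_ ?_
      · intro m hm
        rw [Finset.mem_coe, Finset.mem_filter, Finset.mem_range] at hm
        rw [Finset.mem_coe, Finset.mem_Icc]
        have h2 := hm.2
        have h3 := st_mono hg (show m ≤ M by omega)
        unfold act at h2
        exact ⟨by omega, h3⟩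
      · intro m hm m' hm' e
        rw [Finset.mem_coe, Finset.mem_filter] at hm hm'
        exact act_inj hg hm.2 hm'.2 e
    rw [Nat.card_Icc] at h1
    omega
  have hTc : T.card ≤ s * (s * (3 * s)) := by
    rw [hT, Finset.card_product, Finset.card_product, Finset.card_range, Finset.card_range]
    exact Nat.mul_le_mul_right _ hact
  have hfin : s * (s * (3 * s)) ≤ g M := by
    refine le_trans ?_ (st_pow_le g M)
    rw [← hsdef]
    calc s * (s * (3 * s)) = 3 * s ^ 3 := by ring
      _ ≤ s * s ^ 3 := Nat.mul_le_mul_right _ hN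
      _ = s ^ 4 := by ring
  refine le_trans ?_ (hTc.trans hfin)
  have hex : ∀ j : ℕ, Pool.Agent.H620R2.Gauge.str j ∈ PL g → ∃ q : ℕ × ℕ × ℕ, act g q.1 ∧
      q.2.1 < st g q.1 ∧ q.2.2 < 3 * st g q.1 ∧ Pool.Agent.H620R2.Gauge.str j = pl q.1 q.2.1 q.2.2 := by
    rintro j ⟨m, i, t, h1, h2, h3, h4⟩
    exact ⟨(m, i, t), h1, h2, h3, h4⟩
  choose! f hf1 hf2 hf3 hf4 using hex
  refine Finset.card_le_card_of_injOn f ?_ ?_
  · intro j hj
    rw [Finset.mem_coe, Finset.mem_filter, Finset.mem_range] at hj
    obtain ⟨hjN, hj⟩ := hj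
    have h1 := hf1 j hj
    have h2 := hf2 j hj
    have h3 := hf3 j hj
    have h4 := congrArg List.length (hf4 j hj)
    rw [Pool.Agent.H620R2.Gauge.length_str] at h4
    have h5 : Nat.log 2 (j + 1) ≤ Nat.log 2 N := Nat.log_mono_right (by omega)
    have h6 : (pl (f j).1 (f j).2.1 (f j).2.2).length =
        2 ^ (f j).1 + ((f j).2.1 + ((f j).2.2 + 1) + 1) := by
      unfold pl
      simp only [List.length_append, List.length_replicate, List.length_cons]
    rw [h6] at h4
    have h7 : 2 ^ (f j).1 ≤ Nat.log 2 N := by omega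
    have h8 : (f j).1 ≤ M := Nat.le_log_of_pow_le (by norm_num) h7
    have h9 := st_mono hg h8
    rw [Finset.mem_coe, hT, Finset.mem_product, Finset.mem_product, Finset.mem_filter,
      Finset.mem_range, Finset.mem_range, Finset.mem_range]
    exact ⟨⟨by omega, h1⟩, by omega, by omega⟩
  · intro j hj j' hj' e
    rw [Finset.mem_coe, Finset.mem_filter] at hj hj'
    apply Pool.Agent.H620R2.Gauge.str_injective
    rw [hf4 j hj.2, hf4 j' hj'.2, e]

end Pool.Agent.W2helper82.MG
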